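import Pool.Agent.helper70.GB.SpecN

/-!
# Project gb, module FI: all commutative cancellative positive monoids

`helper93`, problem MP_7933bc_al.
-/

open Matrix Polynomial

namespace GB

universe u

/-- the unimodular row and its dual come from the monoid algebra of a submonoid which contains
the supports. -/
theorem FI_descend {R P M : Type u} [CommRing R] [AddCommMonoid P] [AddCommMonoid M] (φ : P →+ M)
    (hφ : Function.Injective φ) {n : ℕ} {v w : Fin n → AddMonoidAlgebra R M} (h : v ⬝ᵥ w = 1)
    (hv : ∀ i, (((v i).coeff.support : Finset M) : Set M) ⊆ Set.range φ)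
    (hw : ∀ i, (((w i).coeff.support : Finset M) : Set M) ⊆ Set.range φ) :
    ∃ v' : Fin n → AddMonoidAlgebra R P, Um v' ∧
      ∀ i, AddMonoidAlgebra.mapDomainRingHom R φ (v' i) = v i := by
  refine ⟨fun i => AddMonoidAlgebra.comapDomain φ hφ (v i),
    ⟨fun i => AddMonoidAlgebra.comapDomain φ hφ (w i), ?_⟩, ?_⟩
  · apply AddMonoidAlgebra.mapDomain_injective (R := R) hφ
    have h1 : AddMonoidAlgebra.mapDomainRingHom R φ
        ((fun i => AddMonoidAlgebra.comapDomain φ hφ (v i)) ⬝ᵥ
          fun i => AddMonoidAlgebra.comapDomain φ hφ (w i)) = 1 := by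
      rw [← h]
      simp only [dotProduct, map_sum, map_mul]
      refine Finset.sum_congr rfl fun i _ => ?_
      congr 1
      · exact AddMonoidAlgebra.mapDomain_comapDomain (hv i) hφ
      · exact AddMonoidAlgebra.mapDomain_comapDomain (hw i) hφ
    have h2 : AddMonoidAlgebra.mapDomainRingHom R φ 1 = 1 := map_one _
    exact h1.trans h2.symm
  · intro i
    exact AddMonoidAlgebra.mapDomain_comapDomain (hv i) hφ

theorem FI (hSM : SM_stmt.{u}) : FI_stmt.{u} := by
  intro hRAO n hn R M _ _ hC hpos v hv
  classical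
  obtain ⟨w, hw⟩ := hv
  -- the finitely generated submonoid
  set S : Finset M := Finset.univ.biUnion fun i : Fin n =>
    ((v i).coeff.support ∪ (w i).coeff.support) with hS
  set N : AddSubmonoid M := AddSubmonoid.closure (S : Set M) with hN
  have hNfg : N.FG := ⟨S, rfl⟩
  let o : M →+ Algebra.GrothendieckAddGroup M := Algebra.GrothendieckAddGroup.of
  have ho : Function.Injective o := Algebra.GrothendieckAddGroup.of_injective
  set M' : AddSubmonoid (Algebra.GrothendieckAddGroup M) := N.map o with hM'
  have hM'fg : M'.FG := hNfg.map o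
  have hM'pos : ∀ g ∈ M', -g ∈ M' → g = 0 := by
    rintro g ⟨a, ha, rfl⟩ ⟨b, hb, hab⟩
    have h1 : o (a + b) = o 0 := by
      rw [map_add, hab, add_neg_cancel, map_zero]
    have h2 : a = 0 := hpos a b (ho h1)
    rw [h2, map_zero]
  have key := hSM hRAO n hn R (Algebra.GrothendieckAddGroup M) M' hM'fg hC hM'pos
  -- the injective homomorphism
  let e : N ≃+ M' := N.equivMapOfInjective o ho
  let φ : M' →+ M := N.subtype.comp e.symm.toAddMonoidHom
  have hφ : Function.Injective φ := by
    intro x y hxy
    have h1 : ((e.symm x : N) : M) = (e.symm y : N) := hxy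
    exact e.symm.injective (Subtype.ext h1)
  have hrange : ∀ m ∈ N, m ∈ Set.range φ := by
    intro m hm
    refine ⟨e ⟨m, hm⟩, ?_⟩
    show ((e.symm (e ⟨m, hm⟩) : N) : M) = m
    rw [AddEquiv.symm_apply_apply]
  have hsub : ∀ i, ∀ m ∈ (v i).coeff.support ∪ (w i).coeff.support, m ∈ Set.range φ := by
    intro i m hm
    apply hrange
    apply AddSubmonoid.subset_closure
    rw [hS, Finset.mem_coe, Finset.mem_biUnion]
    exact ⟨i, Finset.mem_univ _, hm⟩
  obtain ⟨v', hv', hv'v⟩ := FI_descend φ hφ hw
    (fun i m hm => hsub i m (Finset.mem_union_left _ hm))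
    (fun i m hm => hsub i m (Finset.mem_union_right _ hm))
  have h1 := (key v' hv').map (AddMonoidAlgebra.mapDomainRingHom R φ)
  have h2 : (fun i => AddMonoidAlgebra.mapDomainRingHom R φ (v' i)) = v := funext hv'v
  rwa [h2] at h1

end GB
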