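import Pool.Agent.helper70.GB.SpecF
import Pool.Agent.helper65.GB.Elem

/-!
# Project gb, module HZ: local Horrocks theorem for rows, from Theorem H for monoid algebras

`helper93`, problem MP_7933bc_al.
-/

open Matrix Polynomial

namespace GB

universe u

/-- a unimodular row of length at least two over a local ring is completable. -/
theorem HZ_local {R : Type*} [CommRing R] [IsLocalRing R] {ι : Type*} [Fintype ι] [DecidableEq ι]
    (hι : 2 ≤ Fintype.card ι) {v : ι → R} (hv : Um v) : Comp v := by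
  obtain ⟨w, hw⟩ := hv
  have h1 : ∃ k, IsUnit (v k) := by
    by_contra hcon
    push Not at hcon
    have h2 : v ⬝ᵥ w ∈ IsLocalRing.maximalIdeal R :=
      Ideal.sum_mem _ fun i _ => Ideal.mul_mem_right _ _ ((IsLocalRing.mem_maximalIdeal _).2 (hcon i))
    rw [hw] at h2
    exact (Ideal.ne_top_iff_one _).1 (IsLocalRing.maximalIdeal.isMaximal R).ne_top h2
  obtain ⟨k, hk⟩ := h1
  obtain ⟨l, hl⟩ := Fintype.exists_ne_of_one_lt_card (by omega : 1 < Fintype.card ι) k
  exact (comp_iff_gEq_single k).2 (EEq_single_of_isUnit k k l hl.symm v hk).gEq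

/-- the group `ℤ` in the universe `u`. -/
abbrev HZ_G : Type u := ULift.{u} ℤ

/-- the functional. -/
def HZ_l : HZ_G.{u} →+ ℤ := AddEquiv.ulift.toAddMonoidHom

theorem HZ_l_apply (m : HZ_G.{u}) : HZ_l m = m.down := rfl

/-- the generator of `ℕ`. -/
def HZ_t : posPart (⊤ : AddSubmonoid HZ_G.{u}) HZ_l :=
  ⟨ULift.up 1, ⟨trivial, by rw [HZ_l_apply]; norm_num⟩⟩

/-- the generator of `ℤ`. -/
def HZ_t' (i : ℤ) : (⊤ : AddSubmonoid HZ_G.{u}) := ⟨ULift.up i, trivial⟩

section

variable (R : Type u) [CommRing R]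

/-- polynomials as elements of the monoid algebra. -/
noncomputable def HZ_a : R[X] →ₐ[R] AddMonoidAlgebra R (posPart (⊤ : AddSubmonoid HZ_G.{u}) HZ_l) :=
  Polynomial.aeval (AddMonoidAlgebra.single HZ_t 1)

/-- the inverse. -/
noncomputable def HZ_b : AddMonoidAlgebra R (posPart (⊤ : AddSubmonoid HZ_G.{u}) HZ_l) →ₐ[R] R[X] :=
  AddMonoidAlgebra.lift R R[X] _
    { toFun := fun m => X ^ (HZ_l (Multiplicative.toAdd m).1).toNat
      map_one' := by
        rw [toAdd_one]
        simp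
      map_mul' := by
        intro x y
        rw [toAdd_mul, AddSubmonoid.coe_add, map_add,
          Int.toNat_add (Multiplicative.toAdd x).2.2 (Multiplicative.toAdd y).2.2, pow_add] }

theorem HZ_ba (f : R[X]) : HZ_b R (HZ_a R f) = f := by
  have h : (HZ_b R).comp (HZ_a R) = AlgHom.id R R[X] := by
    apply Polynomial.algHom_ext
    rw [AlgHom.comp_apply, HZ_a, aeval_X, HZ_b, AddMonoidAlgebra.lift_single]
    simp [HZ_t, HZ_l_apply]
  exact DFunLike.congr_fun h f

/-- the image of a polynomial in the group ring. -/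
theorem HZ_incl (f : R[X]) : incl R (posPart_le (⊤ : AddSubmonoid HZ_G.{u}) HZ_l) (HZ_a R f) =
    ∑ i ∈ Finset.range (f.natDegree + 1), AddMonoidAlgebra.single (HZ_t' i) (f.coeff i) := by
  rw [HZ_a, aeval_eq_sum_range, map_sum]
  refine Finset.sum_congr rfl fun i _ => ?_
  rw [map_smul, map_pow]
  have h1 : incl R (posPart_le (⊤ : AddSubmonoid HZ_G.{u}) HZ_l)
      (AddMonoidAlgebra.single HZ_t 1) = AddMonoidAlgebra.single (HZ_t' 1) 1 := by
    rw [incl]
    exact AddMonoidAlgebra.mapDomain_single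
  rw [h1, AddMonoidAlgebra.single_pow, one_pow, AddMonoidAlgebra.smul_single, smul_eq_mul, mul_one]
  congr 1
  apply Subtype.ext
  apply ULift.ext
  simp [HZ_t']

theorem HZ_unit {f : R[X]} (hf : f.Monic) : IsUnit (algebraMap
    (AddMonoidAlgebra R (⊤ : AddSubmonoid HZ_G.{u}))
    (Localization (SigMA R (⊤ : AddSubmonoid HZ_G.{u}) HZ_l))
    (incl R (posPart_le (⊤ : AddSubmonoid HZ_G.{u}) HZ_l) (HZ_a R f))) := by
  set k := f.natDegree with hk
  have h1 : AddMonoidAlgebra.single (HZ_t' (-(k : ℤ))) 1 *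
      incl R (posPart_le (⊤ : AddSubmonoid HZ_G.{u}) HZ_l) (HZ_a R f) ∈
      SigMA R (⊤ : AddSubmonoid HZ_G.{u}) HZ_l := by
    apply Submonoid.subset_closure
    intro m hm
    have h2 : AddMonoidAlgebra.single (HZ_t' (-(k : ℤ))) 1 *
        incl R (posPart_le (⊤ : AddSubmonoid HZ_G.{u}) HZ_l) (HZ_a R f) - 1 =
        ∑ i ∈ Finset.range k, AddMonoidAlgebra.single (HZ_t' ((i : ℤ) - k)) (f.coeff i) := by
      rw [HZ_incl, Finset.mul_sum, Finset.sum_range_succ, ← hk, hf.coeff_natDegree,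
        AddMonoidAlgebra.single_mul_single]
      have h3 : HZ_t' (-(k : ℤ)) + HZ_t' (k : ℤ) = (0 : (⊤ : AddSubmonoid HZ_G.{u})) := by
        apply Subtype.ext
        apply ULift.ext
        simp [HZ_t']
      rw [h3, mul_one, ← AddMonoidAlgebra.one_def, add_sub_cancel_right]
      refine Finset.sum_congr rfl fun i _ => ?_
      rw [AddMonoidAlgebra.single_mul_single, one_mul]
      congr 1
      apply Subtype.ext
      apply ULift.ext
      simp [HZ_t']
      ring
    rw [h2, AddMonoidAlgebra.coeff_sum, Finsupp.finsetSum_apply]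
    refine Finset.sum_eq_zero fun i hi => ?_
    rw [AddMonoidAlgebra.coeff_single, Finsupp.single_apply, if_neg]
    rintro rfl
    have h4 : (0 : ℤ) ≤ (i : ℤ) - k := hm
    have h5 := Finset.mem_range.1 hi
    omega
  have h6 := IsLocalization.map_units
    (Localization (SigMA R (⊤ : AddSubmonoid HZ_G.{u}) HZ_l)) ⟨_, h1⟩
  rw [map_mul] at h6
  exact isUnit_of_mul_isUnit_right h6

/-- the comparison of the localizations. -/
noncomputable def HZ_c : RX R →+* Localization (SigMA R (⊤ : AddSubmonoid HZ_G.{u}) HZ_l) :=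
  IsLocalization.lift (M := monicSub R)
    (g := ((algebraMap (AddMonoidAlgebra R (⊤ : AddSubmonoid HZ_G.{u}))
      (Localization (SigMA R (⊤ : AddSubmonoid HZ_G.{u}) HZ_l))).comp
        ((incl R (posPart_le (⊤ : AddSubmonoid HZ_G.{u}) HZ_l)).comp (HZ_a R)).toRingHom))
    fun y => HZ_unit R y.2

theorem HZ_c_apply (f : R[X]) : HZ_c R (algebraMap R[X] (RX R) f) =
    algebraMap (AddMonoidAlgebra R (⊤ : AddSubmonoid HZ_G.{u}))
      (Localization (SigMA R (⊤ : AddSubmonoid HZ_G.{u}) HZ_l))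
      (incl R (posPart_le (⊤ : AddSubmonoid HZ_G.{u}) HZ_l) (HZ_a R f)) :=
  IsLocalization.lift_eq _ _

/-- the algebra of the trivial monoid. -/
theorem HZ_triv {P : Type*} [AddCommMonoid P] [Subsingleton P] (x : AddMonoidAlgebra R P) :
    algebraMap R (AddMonoidAlgebra R P) (AddMonoidAlgebra.lift R R P 1 x) = x := by
  have h : (Algebra.ofId R (AddMonoidAlgebra R P)).comp (AddMonoidAlgebra.lift R R P 1) =
      AlgHom.id R _ := by
    apply AddMonoidAlgebra.algHom_ext
    case single_zero_left => exact Subsingleton.elim _ _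
    intro m
    have hm : m = 0 := Subsingleton.elim _ _
    subst hm
    simp [AddMonoidAlgebra.lift_single]
  exact DFunLike.congr_fun h x

end

theorem HZ (hTM : TM_stmt.{u}) : HZ_stmt.{u} := by
  intro R _ _ ι _ _ hι v hv hc
  have hsub : Subsingleton (zeroPart (⊤ : AddSubmonoid HZ_G.{u}) HZ_l) := by
    refine ⟨fun x y => ?_⟩
    apply Subtype.ext
    apply Subtype.ext
    apply ULift.ext
    have hx : HZ_l x.1.1 = 0 := x.2
    have hy : HZ_l y.1.1 = 0 := y.2
    rw [HZ_l_apply] at hx hy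
    rw [hx, hy]
  have hv' : Um (fun i => HZ_a R (v i)) := hv.map (HZ_a R).toRingHom
  have key := hTM R HZ_G.{u} ⊤ HZ_l ι hι (fun i => HZ_a R (v i)) hv' ?_ ?_
  · have h1 := key.map (HZ_b R).toRingHom
    have h2 : (fun i => (HZ_b R).toRingHom (HZ_a R (v i))) = v := funext fun i => HZ_ba R (v i)
    rwa [h2] at h1
  · have h1 := hc.map (HZ_c R)
    have h2 : (fun i => HZ_c R (algebraMap R[X] (RX R) (v i))) = fun i =>
        algebraMap (AddMonoidAlgebra R (⊤ : AddSubmonoid HZ_G.{u}))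
          (Localization (SigMA R (⊤ : AddSubmonoid HZ_G.{u}) HZ_l))
          (incl R (posPart_le (⊤ : AddSubmonoid HZ_G.{u}) HZ_l) (HZ_a R (v i))) :=
      funext fun i => HZ_c_apply R (v i)
    rwa [h2] at h1
  · have h0 := hv'.map (retr R (zeroPart (⊤ : AddSubmonoid HZ_G.{u}) HZ_l)
      (zeroPart_isFace ⊤ HZ_l)).toRingHom
    have h1 := h0.map (AddMonoidAlgebra.lift R R
      (zeroPart (⊤ : AddSubmonoid HZ_G.{u}) HZ_l) 1).toRingHom
    have h2 := (HZ_local hι h1).map (algebraMap R (AddMonoidAlgebra R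
      (zeroPart (⊤ : AddSubmonoid HZ_G.{u}) HZ_l)))
    have h3 : (fun i => algebraMap R (AddMonoidAlgebra R
      (zeroPart (⊤ : AddSubmonoid HZ_G.{u}) HZ_l)) ((AddMonoidAlgebra.lift R R
      (zeroPart (⊤ : AddSubmonoid HZ_G.{u}) HZ_l) 1).toRingHom ((retr R
      (zeroPart (⊤ : AddSubmonoid HZ_G.{u}) HZ_l)
      (zeroPart_isFace ⊤ HZ_l)).toRingHom (HZ_a R (v i))))) = fun i => retr R
      (zeroPart (⊤ : AddSubmonoid HZ_G.{u}) HZ_l)
      (zeroPart_isFace ⊤ HZ_l) (HZ_a R (v i)) := by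
      funext i
      exact HZ_triv R _
    rwa [h3] at h2

end GB
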